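import Pool.Agent.H44.Reflect

/-!
Poonen's strengthening of the union-closed sets conjecture for semimodular families, relatively
complemented families and, more generally, all families that can be peeled by reflecting points.
-/

set_option autoImplicit false

open Pool.Agent.H44.Reflect

namespace Pool.Agent.Results.MP_75f39d_co.SemimodularOrPeelable

/-- Let `A` be a nonempty finite union-closed family of finite sets with universe `U = ⋃ A` that
separates the points of `U` and is not the power set of `U`. If the inclusion order of `A ∪ {∅}`
is upper semimodular, or is relatively complemented, or `A` is peeled by some list of points, then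
some point of `U` lies in strictly more than half of the members of `A`. -/
theorem result {α : Type*} [DecidableEq α] (A : Finset (Finset α)) (hA : A.Nonempty)
    (huc : ∀ X ∈ A, ∀ Y ∈ A, X ∪ Y ∈ A)
    (hsep : ∀ x ∈ A.sup id, ∀ y ∈ A.sup id, x ≠ y →
      ∃ S ∈ A, (x ∈ S ∧ y ∉ S) ∨ (y ∈ S ∧ x ∉ S))
    (hne : A ≠ (A.sup id).powerset)
    (hcl : Semimodular A ∨ RelComplemented A ∨ ∃ l : List α, PeelsBy A l) :
    ∃ x ∈ A.sup id, A.card < 2 * (A.filter (fun S => x ∈ S)).card := by
  refine main A hA huc hsep hne ?_
  tauto

end Pool.Agent.Results.MP_75f39d_co.SemimodularOrPeelable
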